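import Mathlib
import Pool.Agent.Lib.MP_b57e3c_ag.MainB

set_option autoImplicit false

namespace Pool.Agent.Results.MP_b57e3c_ag.HalfIntegralNull

/-- **Theorem.** Let `g ≥ 7` and let `τ` be a point of the Siegel upper half space all of whose
off-diagonal entries are half-integers. Then some even theta constant vanishes at `τ`: the
principally polarized abelian variety of `τ` lies on the theta-null divisor. -/
theorem result (g : ℕ) (hg : 7 ≤ g) (τ : Matrix (Fin g) (Fin g) ℂ) (hτ : AM.Siegel τ)
    (hh : ∀ i j : Fin g, i ≠ j → ∃ k : ℤ, 2 * τ i j = k) : AM.ThetaNull τ :=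
  AM.thmB hg hτ hh

end Pool.Agent.Results.MP_b57e3c_ag.HalfIntegralNull
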