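import Mathlib
import Pool.Agent.Lib.MP_b57e3c_ag.MainA

set_option autoImplicit false

namespace Pool.Agent.Results.MP_b57e3c_ag.HalfIntegralSing

/-- **Theorem.** Let `g ≥ 4` and let `τ` be a point of the Siegel upper half space all of whose
off-diagonal entries are half-integers (`2 τ i j ∈ ℤ` for `i ≠ j`; the diagonal entries are
arbitrary). If the principally polarized abelian variety of `τ` is indecomposable, then
`dim Sing Θ ≤ g - 4`: the singular locus of the theta divisor contains no immersed complex piece
of dimension `g - 3`. -/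
theorem result (g : ℕ) (hg : 4 ≤ g) (τ : Matrix (Fin g) (Fin g) ℂ) (hτ : AM.Siegel τ)
    (hh : ∀ i j : Fin g, i ≠ j → ∃ k : ℤ, 2 * τ i j = k) (hdec : ¬ AM.Decomposable τ) :
    ¬ AM.DimGE (g - 3) (AM.singTheta τ) :=
  AM.thmA hg hτ hh hdec

end Pool.Agent.Results.MP_b57e3c_ag.HalfIntegralSing
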