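import Mathlib
import Pool.Agent.Lib.MP_b57e3c_ag_M.Main

set_option autoImplicit false

open Complex

namespace Pool.Agent.Results.MP_b57e3c_ag.NearCusp

/-- **Theorem** (Debarre's first question near the maximal cusp). Let `g ≥ 4`, let `K` be a compact
set of complex `g × g` matrices without integral off-diagonal entries and `η > 0`. There is `T` such
that for every period matrix `τ` whose off-diagonal part is in `K` and with `Im τ_ii ≥ T` for all
`i`, if `dim Sing Θ ≥ g - 3` then

1. there are `a_1, …, a_g ∈ ℂ^*` with `a_i ≠ ± a_j` and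
   `|exp (2 π i τ_ij) - ((a_i - a_j)/(a_i + a_j))²| < η` for `i ≠ j`;
2. for every triple `J` of indices there are `δ_J i ∈ {0, 1}`, `∑_{i ∈ J} δ_J i` even, such that the
   theta constants with characteristic `[1_J, δ'](τ)` vanish for all `δ'` with `δ' = δ_J` on `J`
   (`2^(g-3)` even characteristics for each `J`);
3. for every index `o`, the theta constants `[1_J, δ_J]`, `J` a triple containing `o`
   (`(g-1)(g-2)/2` functions of `τ`), have linearly independent differentials at `τ`: no nontrivial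
   linear combination of them has vanishing derivatives in all the directions `τ_jk`, `j, k ≠ o`,
   `j ≠ k`. -/
theorem result (g : ℕ) (hg : 4 ≤ g) (K : Set (Matrix (Fin g) (Fin g) ℂ)) (hK : IsCompact K)
    (hint : ∀ X ∈ K, ∀ i j, i ≠ j → ∀ k : ℤ, X i j ≠ k) (η : ℝ) (hη : 0 < η) :
    ∃ T : ℝ, ∀ τ : Matrix (Fin g) (Fin g) ℂ, AM.Siegel τ →
      (fun i j => if i = j then 0 else τ i j) ∈ K → (∀ i, T ≤ (τ i i).im) →
      AM.DimGE (g - 3) (AM.singTheta τ) →
      (∃ a : Fin g → ℂ, (∀ i, a i ≠ 0) ∧ ∀ i j, i ≠ j → a i ≠ a j ∧ a i + a j ≠ 0 ∧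
        ‖cexp (2 * Real.pi * I * τ i j) - ((a i - a j) / (a i + a j)) ^ 2‖ < η) ∧
      ∃ δ : Finset (Fin g) → Fin g → Fin 2,
        (∀ J : Finset (Fin g), J.card = 3 → Even (∑ i ∈ J, (δ J i : ℕ)) ∧
          ∀ δ' : Fin g → Fin 2, (∀ i ∈ J, δ' i = δ J i) →
            AM.thetaConst τ (fun i => if i ∈ J then 1 else 0) δ' = 0) ∧
        ∀ o : Fin g, ∀ l : Finset (Fin g) → ℂ,
          (∀ j k, j ≠ o → k ≠ o → j ≠ k →
            ∑ J ∈ Finset.univ.filter (fun J : Finset (Fin g) => J.card = 3 ∧ o ∈ J),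
              l J * deriv (fun t : ℂ => AM.thetaConst
                (τ + t • (Matrix.single j k 1 + Matrix.single k j 1))
                (fun i => if i ∈ J then 1 else 0) (δ J)) 0 = 0) →
          ∀ J : Finset (Fin g), J.card = 3 → o ∈ J → l J = 0 := by
  obtain ⟨T, hT⟩ := AMC.main g (by omega) K hK hint η hη
  exact ⟨T, fun τ hτ hoff him hd => hT τ hτ hoff him hd⟩

end Pool.Agent.Results.MP_b57e3c_ag.NearCusp
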