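import Mathlib
import Pool.Agent.Lib.MP_b57e3c_ag_P.Ui

set_option autoImplicit false

open Complex

namespace Pool.Agent.Results.MP_b57e3c_ag.NearProducts

/-- **Theorem** (Debarre's two questions near products of elliptic curves). Let `g ≥ 4`, let `Sg` be
a compact set of `g`-tuples `s` of points of the upper half plane, `K` a compact set of symmetric
`g × g` matrices `β` with nonzero off-diagonal entries, `η > 0`. There is `ε > 0` such that for
every matrix `τ` with diagonal `s ∈ Sg` and off-diagonal part `t β`, `β ∈ K`, `0 < |t| < ε`: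

1. `τ` is a period matrix and `dim Sing Θ ≤ g - 4`;
2. if `dim Sing Θ = g - 4` and `τ` is not exceptional, then the `β_ij` are within `η` of
   `1 / det (w_i, w_j)²` for vectors `w_1, …, w_g` of the plane, the matrices of second derivatives of
   the theta function at the points of `Sing Θ` span a space of dimension at least
   `(g-2)(g-3)/2`, and `τ` is determined by its diagonal and any two of its rows: every non-exceptional
   `τ'` with off-diagonal part `t β'`, `β' ∈ K`, `|β' - β| < ε`, `dim Sing Θ' ≥ g - 4`, with the same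
   diagonal and the same rows `a` and `b` as `τ` is equal to `τ`.

`τ` is exceptional (`AMP.Exc`) if for some set `S` of four indices all the theta constants with
characteristic `(1,1)` at the indices in `S` and not `(1,1)` at the others vanish (`3^(g-4)` even
characteristics), or if `|P + Q + R| < η`, `|PQ + QR + RP| < η` for
`P = β_ij β_kl`, `Q = β_ik β_jl`, `R = β_il β_jk` with some distinct `i, j, k, l`. -/
theorem result (g : ℕ) (hg : 4 ≤ g) (Sg : Set (Fin g → ℂ)) (hS : IsCompact Sg)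
    (hp : ∀ s ∈ Sg, ∀ i, 0 < (s i).im) (K : Set (Fin g → Fin g → ℂ)) (hK : IsCompact K)
    (hsym : ∀ β ∈ K, ∀ i j, β i j = β j i) (hne : ∀ β ∈ K, ∀ i j, i ≠ j → β i j ≠ 0)
    (η : ℝ) (hη : 0 < η) :
    ∃ ε > 0, ∀ s ∈ Sg, ∀ β ∈ K, ∀ t : ℂ, t ≠ 0 → ‖t‖ < ε →
      ∀ τ : Matrix (Fin g) (Fin g) ℂ, (∀ i, τ i i = s i) →
        (∀ i j, i ≠ j → τ i j = t * β i j) →
        AM.Siegel τ ∧ ¬ AM.DimGE (g - 3) (AM.singTheta τ) ∧
        (AM.DimGE (g - 4) (AM.singTheta τ) → ¬ AMP.Exc η β τ →
          (∃ w : Fin g → ℂ × ℂ, ∀ i j, i ≠ j →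
            ‖β i j * AMP.dt (w i) (w j) ^ 2 - 1‖ < η) ∧
          (g - 2) * (g - 3) / 2 ≤
            Module.finrank ℂ (Submodule.span ℂ (AMP.hes τ '' AM.singTheta τ)) ∧
          ∀ a b : Fin g, a ≠ b → ∀ β' ∈ K, ∀ τ' : Matrix (Fin g) (Fin g) ℂ,
            (∀ i, τ' i i = s i) → (∀ i j, i ≠ j → τ' i j = t * β' i j) →
            (∀ i j, i ≠ j → ‖β' i j - β i j‖ < ε) → (∀ j, τ' a j = τ a j ∧ τ' b j = τ b j) →
            AM.DimGE (g - 4) (AM.singTheta τ') → ¬ AMP.Exc η β' τ' → τ' = τ) :=
  AMP.main2 hg hS hp hK hsym hne hη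

end Pool.Agent.Results.MP_b57e3c_ag.NearProducts
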